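import Mathlib
import Pool.Agent.Q148.BM.TensLe

/-!
# Breuil–Mézard for `GL_n` over `ℚ_p`: from Hodge type zero to all Hodge types by one-sided bounds

Notation. `HT Unit d`: families of `d` integers. `Reg l`: strictly decreasing, i.e.
`l = λ + (d-1,…,0)` with a Hodge type `λ`; `eta = (d-1,…,0)` is the Hodge type `0`.

`T`: a set of types `σ(t)`, irreducible representations of `GL_d(ℤ_p)`, which is closed under
products with the Brauer lifts of the exterior powers of the standard representation of
`GL_d(𝔽_p)`: the product of `σ(t)` with such a lift is an integral combination of `σ(t')` with
`t' ∈ T`. Examples: the principal series types `⊕ χ_s` for which no ratio of two of the characters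
is tame, and the product with the `i`-th lift is the sum of the types obtained by multiplying
`i` of the characters with the Teichmüller character; the irreducible representations of
`GL_d(𝔽_p)` (tame inertial types with a monodromy stratum; the trivial representation is
the crystalline case).
-/

namespace Pool.Agent.Results.MP_7b0b46_nt.OneSidedRecursion

open Q148.BM Finset

/-- The data of the conjecture for a fixed residual representation of `G_{ℚ_p}` of dimension `d`
with the properties that are used. `V`: Serre weights. `n t k l`: the multiplicity of `k` in the
reduction of `W(λ) ⊗ σ(t)`. `mult t l`: the multiplicity of the special fibre of the lifting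
ring for `σ(t)` and the Hodge–Tate weights `l` (for types with monodromy strata the components are
counted with the multiplicity of `σ(t)` in the attached smooth representations; for
potentially crystalline types it is the Hilbert–Samuel multiplicity of the problem). `μ`: numbers
attached to the Serre weights (the multiplicities of patched modules). -/
structure PatchData (d : ℕ) (T V : Type*) [Fintype V] where
  /-- multiplicities of Serre weights -/
  n : T → V → HT Unit d → ℤ
  /-- multiplicities of the special fibres -/
  mult : T → HT Unit d → ℤ
  /-- numbers attached to the Serre weights -/
  μ : V → ℤ
  /-- `c i t t'`: the coefficient of `σ(t')` in the product of `σ(t)` with the Brauer lift of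
  the `i`-th exterior power of the standard representation -/
  c : ℕ → T → (T →₀ ℤ)
  /-- `σ(τ t)` is the product of `σ(t)` with the Brauer lift of the determinant -/
  τ : T ≃ T
  /-- the meaning of `τ` -/
  det : ∀ t, c d t = Finsupp.single (τ t) 1
  /-- Pieri's rule: the multiplicities of Serre weights satisfy the tensor relations -/
  tensor_n : ∀ k, TensRel d (fun _ => c) (fun t => n t k)
  /-- twisting by a potentially crystalline character which is trivial modulo `p` -/
  twist : TwistT (fun _ => τ) mult
  /-- the lower bound of patching -/
  lower : ∀ t l, Reg l → ∑ k, n t k l * μ k ≤ mult t l
  /-- Hodge type zero -/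
  zero : ∀ t, mult t eta = ∑ k, n t k eta * μ k

/-- The identity of the conjecture holds for all Hodge types and all types in `T` if and only if
the one-sided tensor relations of degree less than `d` hold at the regular weights. -/
theorem result {d : ℕ} (hd : 0 < d) {T V : Type*} [Fintype V] (D : PatchData d T V) :
    (∀ t l, Reg l → D.mult t l = ∑ k, D.n t k l * D.μ k) ↔
      ∀ t (i : ℕ), 1 ≤ i → i < d → ∀ l : HT Unit d, Reg l →
        ∑ S ∈ powersetCard i univ, alt (D.mult t) (l + bump () S 1) ≤
          (D.c i t).sum fun t' m => m * D.mult t' l := by
  rw [criterionTL hd (fun _ => D.det) D.tensor_n D.mult D.twist D.μ D.lower,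
    and_iff_left D.zero]
  constructor
  · intro h t i h1 h2 l hl
    exact h t () i h1 h2 l hl
  · intro h t j i h1 h2 l hl
    exact h t i h1 h2 l hl

end Pool.Agent.Results.MP_7b0b46_nt.OneSidedRecursion
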