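import Mathlib
import Pool.Agent.Q148.BM.TensReg

/-!
# Breuil–Mézard for `GL_n` over `ℚ_p` and tame types, without unknown multiplicities

Notation. `HT Unit d`: families of `d` integers. `Reg l`: strictly decreasing, i.e.
`l = λ + (d-1,…,0)` with a Hodge type `λ`; `eta = (d-1,…,0)` is the Hodge type `0`. `T`: the
irreducible representations `σ(t)` of `GL_d(𝔽_p)` in characteristic zero; they correspond to
the tame inertial types together with a monodromy stratum. The trivial representation
corresponds to the trivial inertial type and `N = 0` (the crystalline case).
-/

namespace Pool.Agent.Results.MP_7b0b46_nt.TameTypes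

open Q148.BM Finset

/-- The data of the conjecture for a fixed residual representation of `G_{ℚ_p}` of dimension `d`
and tame types, with the published properties that are used. `V`: Serre weights. `n t k l`: the
multiplicity of `k` in the reduction of `W(λ) ⊗ σ(t)`. `mult t l`: the multiplicity of the special
fibre of the potentially semistable ring for `σ(t)` and the Hodge–Tate weights `l` (its
components are counted with the multiplicity of `σ(t)` in the attached smooth representations;
for potentially crystalline types it is the Hilbert–Samuel multiplicity of the problem). -/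
structure TameData (d : ℕ) (T V : Type*) [Fintype V] where
  /-- multiplicities of Serre weights -/
  n : T → V → HT Unit d → ℤ
  /-- multiplicities of the special fibres -/
  mult : T → HT Unit d → ℤ
  /-- `c i t t'`: the coefficient of `σ(t')` in the product of `σ(t)` with the Brauer lift of
  the `i`-th exterior power of the standard representation -/
  c : ℕ → T → (T →₀ ℤ)
  /-- `σ(τ t)` is the product of `σ(t)` with the Brauer lift of the determinant -/
  τ : T ≃ T
  /-- the meaning of `τ` -/
  det : ∀ t, c d t = Finsupp.single (τ t) 1
  /-- Pieri's rule: the multiplicities of Serre weights satisfy the tensor relations -/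
  tensor_n : ∀ k, TensRel d (fun _ => c) (fun t => n t k)
  /-- Brauer: the decomposition map of `GL_d(𝔽_p)` is surjective -/
  span_n : Submodule.span ℤ (Set.range fun t k => n t k eta) = ⊤
  /-- twisting by a potentially crystalline character which is trivial modulo `p` -/
  twist : TwistT (fun _ => τ) mult

/-- The conjecture for tame types holds for the given residual representation and all Hodge types
if and only if the multiplicities satisfy the tensor relations of degree less than `d` at the
regular weights and, for Hodge type zero, are nonnegative on the virtual representations of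
`GL_d(𝔽_p)` whose reduction modulo `p` is effective. -/
theorem result {d : ℕ} (hd : 0 < d) {T V : Type*} [Fintype V] (D : TameData d T V) :
    (∃ μ : V → ℤ, (∀ k, 0 ≤ μ k) ∧
        ∀ t l, Reg l → D.mult t l = ∑ k, D.n t k l * μ k) ↔
      (∀ t (i : ℕ), 1 ≤ i → i < d → ∀ l : HT Unit d, Reg l →
        ∑ S ∈ powersetCard i univ, alt (D.mult t) (l + bump () S 1) =
          (D.c i t).sum fun t' m => m * D.mult t' l) ∧
      (∀ m : T →₀ ℤ, (∀ k, 0 ≤ m.sum fun t x => x * D.n t k eta) →
        0 ≤ m.sum fun t x => x * D.mult t eta) := by
  have hreg : TensReg (fun _ => D.c) D.mult ↔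
      ∀ t (i : ℕ), 1 ≤ i → i < d → ∀ l : HT Unit d, Reg l →
        ∑ S ∈ powersetCard i univ, alt (D.mult t) (l + bump () S 1) =
          (D.c i t).sum fun t' m => m * D.mult t' l := by
    have e : ∀ t i (l : HT Unit d), Reg l →
        ((D.c i t).sum fun t' m => m • alt (D.mult t') l) =
          (D.c i t).sum fun t' m => m * D.mult t' l := by
      intro t i l hl
      exact Finset.sum_congr rfl fun t' _ => by
        beta_reduce
        rw [alt_of_reg _ hl, smul_eq_mul]
    constructor
    · intro h t i h1 h2 l hl
      rw [← e t i l hl]
      exact h t () i h1 h2 l hl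
    · intro h t j i h1 h2 l hl
      rw [e t i l hl]
      exact h t i h1 h2 l hl
  rw [← hreg, ← factor_num D.span_n fun t => D.mult t eta]
  constructor
  · rintro ⟨μ, h1, h2⟩
    have h3 := (criterionTR hd (fun _ => D.det) D.tensor_n D.mult D.twist μ).1 (by simpa using h2)
    exact ⟨h3.1, μ, h1, by simpa using h3.2⟩
  · rintro ⟨h1, μ, h2, h3⟩
    refine ⟨μ, h2, ?_⟩
    have h4 := (criterionTR hd (fun _ => D.det) D.tensor_n D.mult D.twist μ).2
      ⟨h1, by simpa using h3⟩
    simpa using h4

end Pool.Agent.Results.MP_7b0b46_nt.TameTypes
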