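import Mathlib
import Pool.Agent.Q148.BM.Red

/-!
# Breuil–Mézard for `GL_n` over `ℚ_p`: one-sided recursions suffice

`HT (Emb 1 1) n` is the set of families of `n` integers (one embedding). `Reg l`: strictly
decreasing, i.e. `l = λ + (n-1,…,0)` with a Hodge type `λ`.
-/

namespace Pool.Agent.Results.MP_7b0b46_nt.UpperBoundsSuffice

open Q148.BM Finset

/-- The data of the conjecture for a fixed residual representation of `G_{ℚ_p}` of dimension `d`
with the properties that are used. `T`: inertial types. `W`: Serre weights. `n t k l`: the
multiplicity of `k` in the reduction of `W(λ) ⊗ σ(t)`. `mult t l`: the Hilbert–Samuel multiplicity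
of the special fibre of the lifting ring of type `t` and Hodge–Tate weights `l`. `μ`: numbers
attached to the Serre weights (the multiplicities of patched modules). -/
structure LowerData (p d : ℕ) [NeZero d] (T W : Type*) [Fintype W] where
  /-- multiplicities of Serre weights -/
  n : T → W → HT (Emb 1 1) d → ℤ
  /-- Hilbert–Samuel multiplicities -/
  mult : T → HT (Emb 1 1) d → ℤ
  /-- numbers attached to the Serre weights -/
  μ : W → ℤ
  /-- Brauer characters: the multiplicities satisfy the Frobenius relations -/
  frobenius_n : ∀ t k, PowRel p d (n t k)
  /-- twisting by crystalline characters which are trivial modulo `p` -/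
  twist : ∀ t, TwistRel p (mult t)
  /-- the lower bound of patching -/
  lower : ∀ t l, Reg l → ∑ k, n t k l * μ k ≤ mult t l
  /-- the identity for the `p`-restricted Hodge types with last entry in `[0, p - 2]` -/
  restricted : ∀ t b, IsLift p b → mult t b = ∑ k, n t k b * μ k

/-- Given the lower bound, and the identity for the finitely many `p`-restricted Hodge types with
last entry in `[0, p-2]`, the identity holds for all Hodge types and all inertial types if and
only if the one-sided recursions hold at the regular weights. -/
theorem result {p d : ℕ} [NeZero d] (hp : p.Prime) {T W : Type*} [Fintype W]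
    (D : LowerData p d T W) :
    (∀ t l, Reg l → D.mult t l = ∑ k, D.n t k l * D.μ k) ↔
      ∀ (t : T) (i : ℕ), 1 ≤ i → i < d → ∀ l : HT (Emb 1 1) d, Reg l →
        ∑ S ∈ powersetCard i univ, alt (D.mult t) (l + bump (0, 0) S p) ≤
          ∑ S ∈ powersetCard i univ, alt (D.mult t) (l + bump (0, 0) S 1) := by
  rw [one_sided_reg hp.two_le D.n D.frobenius_n D.mult D.twist D.μ D.lower D.restricted]
  refine forall_congr' fun t => ?_
  constructor
  · intro h i h1 h2 l hl
    exact h.1 0 i h1 h2 l hl
  · intro h
    refine ⟨fun i k h1 h2 l hl => ?_, fun i a k h1 h2 l _ => ?_⟩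
    · obtain rfl : i = 0 := Subsingleton.elim _ _
      exact h k h1 h2 l hl
    · obtain rfl : a = 0 := Subsingleton.elim _ _
      exact le_rfl

end Pool.Agent.Results.MP_7b0b46_nt.UpperBoundsSuffice
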